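import Mathlib
import Pool.Agent.N988.EA.Defs2

/-!
# Planar rotators with arbitrary couplings on the hierarchical lattice of dimension two: definitions

The hierarchical (diamond, Migdal-Kadanoff) lattices `H n` with two branches (`Edge 2 n`, `Vert 2 n`,
`Pt 2 n`, `emb`, `bd`) and the edges `EdgeInf 2 p` of the infinite lattice are defined in
`Pool.Agent.N988.EA.Defs` and `Pool.Agent.N988.EA.Defs2`.
-/

open MeasureTheory
open Pool.Agent.N988.EA

namespace Pool.Agent.N990.RU

noncomputable section

instance twoPiPos : Fact (0 < 2 * Real.pi) := ⟨Real.two_pi_pos⟩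

/-- The spins: angles modulo `2 π`. -/
abbrev Ang : Type := AddCircle (2 * Real.pi)

/-- The cosine of an angle. -/
def cs : Ang → ℝ := Real.cos_periodic.lift

/-- The normalised Lebesgue measure on the circle. -/
abbrev ha : Measure Ang := AddCircle.haarAddCircle

/-- The couplings of `H n`: for every edge a real number and an angle. -/
abbrev Cpl (n : ℕ) : Type := Edge 2 n → ℝ × Ang

/-- Minus the energy (times the inverse temperature): the sum of `J_e cos (θ_x - θ_y - A_e)` over the
edges `e = xy` of `H n`. -/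
def act (n : ℕ) (J : Cpl n) (θ : Pt 2 n → Ang) : ℝ :=
  ∑ e : Edge 2 n, (J e).1 * cs (θ (bd n e false) - θ (bd n e true) - (J e).2)

/-- The reference measure for the spins inside `H n`. -/
abbrev refm (n : ℕ) : Measure (Vert 2 n → Ang) := Measure.pi fun _ : Vert 2 n => ha

/-- The partition function of `H n` with the spins `τ` at the ends. -/
def Zf (n : ℕ) (J : Cpl n) (τ : Bool → Ang) : ℝ :=
  ∫ σ, Real.exp (act n J (Sum.elim τ σ)) ∂(refm n)

/-- The Gibbs distribution of the spins inside `H n` with the spins `τ` at the ends. -/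
def gib (n : ℕ) (J : Cpl n) (τ : Bool → Ang) : Measure (Vert 2 n → Ang) :=
  (refm n).withDensity fun σ => ENNReal.ofReal (Real.exp (act n J (Sum.elim τ σ)) / Zf n J τ)

/-- The vertices of the infinite lattice, the union of `H 0 ⊆ H 1 ⊆ …`, where `H n` is the half
`(p n).2` of the branch `(p n).1` of `H (n + 1)`: those of `H 0`, and for every `n` the vertices of
`H (n + 1)` which are not in `H n`. -/
def VInf (p : ℕ → Fin 2 × Bool) : Type :=
  Pt 2 0 ⊕ (Σ n : ℕ, {x : Pt 2 (n + 1) // ∀ y, emb (p n).1 (p n).2 y ≠ x})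

open Classical in
/-- A vertex of `H n` as a vertex of the infinite lattice. -/
def inc (p : ℕ → Fin 2 × Bool) : (n : ℕ) → Pt 2 n → VInf p
  | 0, x => .inl x
  | n + 1, x => if h : ∃ y, emb (p n).1 (p n).2 y = x then inc p n h.choose
      else .inr ⟨n, ⟨x, fun y hy => h ⟨y, hy⟩⟩⟩

/-- The couplings of the edges of `H n`, for couplings `J` of the infinite lattice. -/
def rs (p : ℕ → Fin 2 × Bool) (J : EdgeInf 2 p → ℝ × Ang) : (n : ℕ) → Cpl n
  | 0, _ => J (.inl ())
  | n + 1, e => if h : (e.1, e.2.1) = p n then rs p J n e.2.2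
      else J (.inr ⟨n, ⟨(e.1, e.2.1), h⟩, e.2.2⟩)

open Classical in
/-- The configuration `ω` of the infinite lattice with the spins inside `H n` replaced by `σ`. -/
def repl (p : ℕ → Fin 2 × Bool) (n : ℕ) (ω : VInf p → Ang) (σ : Vert 2 n → Ang) : VInf p → Ang :=
  fun v => if h : ∃ x : Vert 2 n, inc p n (.inr x) = v then σ h.choose else ω v

/-- `μ` is a Gibbs state (an infinite volume Gibbs measure) of the planar rotators with couplings
`J` on the infinite lattice: for all `n`, the spins inside `H n` have, given all other spins, the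
Gibbs distribution of `H n` with the given spins at the ends of `H n` (the DLR equations). -/
structure IsGibbs (p : ℕ → Fin 2 × Bool) (J : EdgeInf 2 p → ℝ × Ang)
    (μ : Measure (VInf p → Ang)) : Prop where
  prob : IsProbabilityMeasure μ
  dlr : ∀ (n : ℕ) (f : (VInf p → Ang) → ℝ), Measurable f → (∃ C, ∀ ω, |f ω| ≤ C) →
    ∫ ω, f ω ∂μ =
      ∫ ω, (∫ σ, f (repl p n ω σ) ∂(gib n (rs p J n) fun t => ω (inc p n (.inl t)))) ∂μ

/-- The average of the absolute values of the couplings of `H n` is bounded. -/
def BddMean (p : ℕ → Fin 2 × Bool) (J : EdgeInf 2 p → ℝ × Ang) : Prop :=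
  ∃ C : ℝ, ∀ n : ℕ, (∑ e : Edge 2 n, |(rs p J n e).1|) / Fintype.card (Edge 2 n) ≤ C

end

end Pool.Agent.N990.RU
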