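import Mathlib
import Pool.Agent.N990.RU.Defs

/-!
# Planar rotators with arbitrary couplings on the hierarchical lattice of dimension two: statements

Theorem: if the averages of `|J_e|` over `H n` are bounded, there is exactly one Gibbs state.

Version of `Pool.Agent.N990.RT.Stm` with couplings `J e = (J_e, A_e)` depending on the edge. The
only changes: the exponent in CSI is `s ^ 2 * ∑ |J_e| (φ_x - φ_y) ^ 2`, where `φ` has the gradient
`2 ^ (-n)` on the edges of the branch `i` of `H (n + 1)` and `0` on the others, so that it is at most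
`s ^ 2 4 ^ (-n) ∑ |J_e|`.
-/

open MeasureTheory
open Pool.Agent.N988.EA

namespace Pool.Agent.N990.RU

noncomputable section

/-- The spins of the ends of `H n`. -/
def ends (p : ℕ → Fin 2 × Bool) (n : ℕ) (ω : VInf p → Ang) : Bool → Ang :=
  fun t => ω (inc p n (.inl t))

/-- The conditional expectation given the spins outside the interior of `H n`. -/
def GG (p : ℕ → Fin 2 × Bool) (J : EdgeInf 2 p → ℝ × Ang) (n : ℕ) (f : (VInf p → Ang) → ℝ)
    (ω : VInf p → Ang) : ℝ :=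
  ∫ σ, f (repl p n ω σ) ∂(gib n (rs p J n) (ends p n ω))

/-- The conditional expectation of a function of the ends of `H n` given the ends of `H (n + 1)`. -/
def Top (p : ℕ → Fin 2 × Bool) (J : EdgeInf 2 p → ℝ × Ang) (n : ℕ) (f : (Bool → Ang) → ℝ)
    (τ : Bool → Ang) : ℝ :=
  ∫ σ, f (fun t => if t = (p n).2 then τ t else σ (Sum.inl (p n).1 : Vert 2 (n + 1)))
    ∂(gib (n + 1) (rs p J (n + 1)) τ)

/-- The conditional expectation of a function of the ends of `H n` given the ends of `H (n + k)`. -/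
def itT (p : ℕ → Fin 2 × Bool) (J : EdgeInf 2 p → ℝ × Ang) (n : ℕ) (f : (Bool → Ang) → ℝ) :
    ℕ → (Bool → Ang) → ℝ
  | 0 => f
  | k + 1 => Top p J (n + k) (itT p J n f k)

/-- The configuration `σ` with the spins inside the half `q.2` of the branch `q.1` replaced. -/
def upd (n : ℕ) (q : Fin 2 × Bool) (σ : Vert 2 (n + 1) → Ang) (σ' : Vert 2 n → Ang) :
    Vert 2 (n + 1) → Ang :=
  fun x => Sum.elim (fun i : Fin 2 => σ (Sum.inl i : Vert 2 (n + 1)))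
    (fun y : Fin 2 × Bool × Vert 2 n => if (y.1, y.2.1) = q then σ' y.2.2
      else σ (Sum.inr y : Vert 2 (n + 1))) x

/-- BAS: basic facts. -/
def S_BAS : Prop := ∀ (n : ℕ) (J : Cpl n),
  Continuous (act n J) ∧
  (∃ C : ℝ, ∀ θ, |act n J θ| ≤ C) ∧
  (Continuous (Zf n J) ∧ ∀ τ, 0 < Zf n J τ) ∧
  (∀ τ, IsProbabilityMeasure (gib n J τ)) ∧
  (∀ τ (F : (Vert 2 n → Ang) → ℝ), ∫ σ, F σ ∂(gib n J τ) =
    (∫ σ, F σ * Real.exp (act n J (Sum.elim τ σ)) ∂(refm n)) / Zf n J τ) ∧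
  (∀ (X : Type) [MeasurableSpace X] (g : X → Bool → Ang) (f : X × (Vert 2 n → Ang) → ℝ),
    Measurable g → Measurable f → Measurable fun x => ∫ σ, f (x, σ) ∂(gib n J (g x)))

/-- ENE: the function for the middle vertex of the branch `i`, with gradient `± 2 ^ (-n)` on all
edges of the branch and `0` on the other edges. -/
def S_ENE : Prop := ∀ (n : ℕ) (i : Fin 2), ∃ φ : Pt 2 (n + 1) → ℝ,
  (∀ t : Bool, φ (Sum.inl t) = 0) ∧ φ (Sum.inr (Sum.inl i : Vert 2 (n + 1))) = 1 ∧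
  ∀ e : Edge 2 (n + 1), (φ (bd (n + 1) e false) - φ (bd (n + 1) e true)) ^ 2 ≤ 1 / 4 ^ n

/-- CSI (from `S_BAS`, `S_ENE`). -/
def S_CSI : Prop := ∀ (n : ℕ) (J : Cpl (n + 1)) (i : Fin 2) (τ : Bool → Ang) (B : Set Ang),
  MeasurableSet B → ∀ s : ℝ,
    Real.exp (-((∑ e, |(J e).1|) / 4 ^ n * s ^ 2)) *
      (gib (n + 1) J τ).real {σ | σ (Sum.inl i : Vert 2 (n + 1)) ∈ B} ^ 2 ≤
    (gib (n + 1) J τ).real {σ | σ (Sum.inl i : Vert 2 (n + 1)) - (s : Ang) ∈ B} *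
      (gib (n + 1) J τ).real {σ | σ (Sum.inl i : Vert 2 (n + 1)) + (s : Ang) ∈ B}

/-- AVG (abstract; unchanged). -/
def S_AVG : Prop := ∀ (ν : Measure Ang) [IsProbabilityMeasure ν] (c : ℝ), 0 ≤ c →
  (∀ (B : Set Ang), MeasurableSet B → ∀ s : ℝ,
    Real.exp (-(c * s ^ 2)) * ν.real B ^ 2 ≤
      ν.real {z | z - (s : Ang) ∈ B} * ν.real {z | z + (s : Ang) ∈ B}) →
  ∀ (B : Set Ang), MeasurableSet B → Real.exp (-(c * Real.pi ^ 2)) * ha.real B ≤ ν.real B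

/-- STP (from `S_BAS`, `S_CSI`, `S_AVG`): one step, with a lower bound `d` of the densities which
does not depend on the level (`∑ |J_e| ≤ C 4 ^ (n + 1)`, `d = exp (-(4 C π²))`, or with `max C 0`). -/
def S_STP : Prop := ∀ (p : ℕ → Fin 2 × Bool) (J : EdgeInf 2 p → ℝ × Ang), BddMean p J →
  ∃ d : ℝ, 0 < d ∧ d ≤ 1 ∧ ∀ (n : ℕ) (f : (Bool → Ang) → ℝ) (a b : ℝ),
  Measurable f → (∀ τ, a ≤ f τ ∧ f τ ≤ b) → ∀ τ : Bool → Ang,
  d * (∫ z, f (fun t => if t = (p n).2 then τ t else z) ∂ha) + (1 - d) * a ≤ Top p J n f τ ∧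
  Top p J n f τ ≤ d * (∫ z, f (fun t => if t = (p n).2 then τ t else z) ∂ha) + (1 - d) * b

/-- OSC (from `S_STP`, `S_BAS`): the influence of the ends decays. -/
def S_OSC : Prop := ∀ (p : ℕ → Fin 2 × Bool) (J : EdgeInf 2 p → ℝ × Ang), BddMean p J →
  (∀ (s : Bool) (k : ℕ), ∃ n, k ≤ n ∧ (p n).2 = s) → ∀ (n : ℕ) (f : (Bool → Ang) → ℝ),
  Measurable f → (∀ τ, 0 ≤ f τ ∧ f τ ≤ 1) → ∀ ε : ℝ, 0 < ε →
    ∃ k : ℕ, ∀ τ τ', itT p J n f k τ ≤ itT p J n f k τ' + ε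

/-- GEO: the vertices of the infinite lattice (unchanged); the last two parts are new: the couplings
of the half `p n` of `H (n + 1)` are those of `H n`, and the number of the edges. -/
def S_GEO : Prop := ∀ (p : ℕ → Fin 2 × Bool),
  Countable (VInf p) ∧
  (∀ n x, inc p (n + 1) (emb (p n).1 (p n).2 x) = inc p n x) ∧
  (∀ n, Function.Injective (inc p n)) ∧
  (∀ v, ∃ n x, inc p n x = v) ∧
  (∀ n ω σ, (∀ x, repl p n ω σ (inc p n (.inr x)) = σ x) ∧
    (∀ v, (∀ x, inc p n (.inr x) ≠ v) → repl p n ω σ v = ω v)) ∧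
  (∀ n ω σ σ', repl p n (repl p (n + 1) ω σ) σ' = repl p (n + 1) ω (upd n (p n) σ σ')) ∧
  (∀ n, Continuous fun z : (VInf p → Ang) × (Vert 2 n → Ang) => repl p n z.1 z.2) ∧
  (∀ n, Measurable fun z : (VInf p → Ang) × (Vert 2 n → Ang) => repl p n z.1 z.2) ∧
  (∀ (J : EdgeInf 2 p → ℝ × Ang) n (e : Edge 2 n),
    rs p J (n + 1) ((p n).1, (p n).2, e) = rs p J n e) ∧
  ∀ n, Fintype.card (Edge 2 n) = 4 ^ n

/-- TOP (from `S_GEO`, `S_BAS`). -/
def S_TOP : Prop := ∀ (p : ℕ → Fin 2 × Bool) (J : EdgeInf 2 p → ℝ × Ang)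
  (μ : Measure (VInf p → Ang)), IsGibbs p J μ → ∀ (n : ℕ) (f : (Bool → Ang) → ℝ), Measurable f →
    (∃ C, ∀ τ, |f τ| ≤ C) →
    ∫ ω, f (ends p n ω) ∂μ = ∫ ω, Top p J n f (ends p (n + 1) ω) ∂μ

/-- UQE (from `S_TOP`, `S_OSC`, `S_BAS`). -/
def S_UQE : Prop := ∀ (p : ℕ → Fin 2 × Bool) (J : EdgeInf 2 p → ℝ × Ang), BddMean p J →
  (∀ (s : Bool) (k : ℕ), ∃ n, k ≤ n ∧ (p n).2 = s) → ∀ μ μ' : Measure (VInf p → Ang),
  IsGibbs p J μ → IsGibbs p J μ' → ∀ (n : ℕ) (f : (Bool → Ang) → ℝ), Measurable f →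
    (∀ τ, 0 ≤ f τ ∧ f τ ≤ 1) → ∫ ω, f (ends p n ω) ∂μ = ∫ ω, f (ends p n ω) ∂μ'

/-- UNI (from `S_UQE`, `S_GEO`, `S_BAS`): uniqueness. -/
def S_UNI : Prop := ∀ (p : ℕ → Fin 2 × Bool) (J : EdgeInf 2 p → ℝ × Ang), BddMean p J →
  (∀ (s : Bool) (k : ℕ), ∃ n, k ≤ n ∧ (p n).2 = s) → ∀ μ μ' : Measure (VInf p → Ang),
  IsGibbs p J μ → IsGibbs p J μ' → μ = μ'

/-- FIN (from `S_BAS`): the finite volume Gibbs distributions are consistent. -/
def S_FIN : Prop := ∀ (n : ℕ) (J : Cpl (n + 1)) (q : Fin 2 × Bool) (τ : Bool → Ang)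
  (G : (Vert 2 (n + 1) → Ang) → ℝ), Measurable G → (∃ C, ∀ σ, |G σ| ≤ C) →
  ∫ σ, G σ ∂(gib (n + 1) J τ) =
    ∫ σ, (∫ σ', G (upd n q σ σ') ∂(gib n (fun e => J (q.1, q.2, e)) fun t =>
      (Sum.elim τ σ : Pt 2 (n + 1) → Ang) (emb q.1 q.2 (.inl t)))) ∂(gib (n + 1) J τ)

/-- CNS (from `S_FIN`, `S_GEO`, `S_BAS`). -/
def S_CNS : Prop := ∀ (p : ℕ → Fin 2 × Bool) (J : EdgeInf 2 p → ℝ × Ang) (n : ℕ)
  (f : (VInf p → Ang) → ℝ), Measurable f → (∃ C, ∀ ω, |f ω| ≤ C) →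
  ∀ ω, GG p J (n + 1) (GG p J n f) ω = GG p J (n + 1) f ω

/-- FEL (from `S_BAS`, `S_GEO`). -/
def S_FEL : Prop := ∀ (p : ℕ → Fin 2 × Bool) (J : EdgeInf 2 p → ℝ × Ang) (n : ℕ)
  (f : (VInf p → Ang) → ℝ), Continuous f → Continuous (GG p J n f)

/-- EXI (from `S_CNS`, `S_FEL`, `S_GEO`, `S_BAS`): existence, for all couplings. -/
def S_EXI : Prop := ∀ (p : ℕ → Fin 2 × Bool) (J : EdgeInf 2 p → ℝ × Ang),
  ∃ μ : Measure (VInf p → Ang), IsGibbs p J μ

/-- RND (from the last part of `S_GEO`): for independent couplings with any law of finite mean the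
averages are bounded, almost surely. Proof: the strong law of large numbers: the edges of the
infinite lattice can be enumerated (`ℕ ≃ EdgeInf 2 p`, infinite and countable) such that the edges of
`H n` are the first `4 ^ n` ones; or avoid the enumeration: with `W_n` the average over `H n`,
`W_(n+1) = (W_n + V_n) / 4`, where `V_n` is the sum of the averages over the three other halves. Or
Ville's maximal inequality for the backward martingale. Any proof is fine. -/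
def S_RND : Prop := ∀ (μ : Measure (ℝ × Ang)) [IsProbabilityMeasure μ],
  Integrable (fun x : ℝ × Ang => x.1) μ → ∀ p : ℕ → Fin 2 × Bool,
    ∀ᵐ J ∂(Measure.infinitePi fun _ : EdgeInf 2 p => μ), BddMean p J

end

end Pool.Agent.N990.RU
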