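import Mathlib
import Pool.Agent.N990.RU.Stm
import Pool.Agent.N540.RU.BAS
import Pool.Agent.N453.RU.ENE
import Pool.Agent.N51.RU.CSI
import Pool.Agent.N78.RU.AVG
import Pool.Agent.N373.RU.STP
import Pool.Agent.N2.RU.OSC
import Pool.Agent.N868.RU.GEO
import Pool.Agent.N438.RU.TOP
import Pool.Agent.N558.RU.UQE
import Pool.Agent.N392.RU.UNI
import Pool.Agent.N409.RU.FIN
import Pool.Agent.N360.RU.CNS
import Pool.Agent.N572.RU.FEL
import Pool.Agent.N667.RU.EXI
import Pool.Agent.N648.RU.RND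

/-!
# Planar rotators with arbitrary couplings on the hierarchical lattice of dimension two: assembly
-/

open MeasureTheory
open Pool.Agent.N988.EA

namespace Pool.Agent.N990.RU

noncomputable section

theorem k_bas : S_BAS := Pool.Agent.N540.RU.t_bas
theorem k_ene : S_ENE := Pool.Agent.N453.RU.t_ene
theorem k_geo : S_GEO := Pool.Agent.N868.RU.t_geo
theorem k_csi : S_CSI := Pool.Agent.N51.RU.t_csi k_bas k_ene
theorem k_avg : S_AVG := Pool.Agent.N78.RU.t_avg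
theorem k_stp : S_STP := Pool.Agent.N373.RU.t_stp k_bas k_geo k_csi k_avg
theorem k_osc : S_OSC := Pool.Agent.N2.RU.t_osc k_bas k_stp
theorem k_top : S_TOP := Pool.Agent.N438.RU.t_top k_bas k_geo
theorem k_uqe : S_UQE := Pool.Agent.N558.RU.t_uqe k_bas k_top k_osc
theorem k_uni : S_UNI := Pool.Agent.N392.RU.UNI.t_uni k_bas k_geo k_uqe
theorem k_fin : S_FIN := Pool.Agent.N409.RU.t_fin k_bas
theorem k_cns : S_CNS := Pool.Agent.N360.RU.t_cns k_bas k_geo k_fin
theorem k_fel : S_FEL := Pool.Agent.N572.RU.FEL.t_fel k_bas k_geo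
theorem k_exi : S_EXI := Pool.Agent.N667.RU.t_exi k_bas k_geo k_cns k_fel
theorem k_rnd : S_RND := Pool.Agent.N648.RU.t_rnd k_geo

theorem exactly_one (p : ℕ → Fin 2 × Bool) (hp : ∀ (s : Bool) (k : ℕ), ∃ n, k ≤ n ∧ (p n).2 = s)
    (J : EdgeInf 2 p → ℝ × Ang) (hJ : BddMean p J) : ∃! μ, IsGibbs p J μ := by
  obtain ⟨μ, hμ⟩ := k_exi p J
  exact ⟨μ, hμ, fun μ' h => k_uni p J hJ hp μ' μ h hμ⟩

theorem rs_map (p : ℕ → Fin 2 × Bool) (J : EdgeInf 2 p → ℝ × Ang) (g : ℝ × Ang → ℝ × Ang) :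
    ∀ n (e : Edge 2 n), rs p (fun e => g (J e)) n e = g (rs p J n e)
  | 0, _ => rfl
  | n + 1, e => by
    unfold rs
    split_ifs with h
    · exact rs_map p J g n e.2.2
    · rfl

theorem BddMean.scale {p : ℕ → Fin 2 × Bool} {J : EdgeInf 2 p → ℝ × Ang} (h : BddMean p J)
    (β : ℝ) : BddMean p (fun e => (β * (J e).1, (J e).2)) := by
  obtain ⟨C, hC⟩ := h
  refine ⟨|β| * C, fun n => ?_⟩
  have h1 : ∀ e : Edge 2 n, |(rs p (fun e => (β * (J e).1, (J e).2)) n e).1| =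
      |β| * |(rs p J n e).1| := by
    intro e
    have h2 := rs_map p J (fun x => (β * x.1, x.2)) n e
    rw [h2, abs_mul]
  rw [Finset.sum_congr rfl fun e _ => h1 e, ← Finset.mul_sum, mul_div_assoc]
  exact mul_le_mul_of_nonneg_left (hC n) (abs_nonneg β)

theorem bddMean_const (p : ℕ → Fin 2 × Bool) (β : ℝ) : BddMean p (fun _ => (β, 0)) := by
  refine ⟨|β|, fun n => ?_⟩
  have h1 : ∀ e : Edge 2 n, |(rs p (fun _ => ((β, 0) : ℝ × Ang)) n e).1| = |β| := by
    intro e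
    have h2 := rs_map p (fun _ => ((β, 0) : ℝ × Ang)) (fun _ => (β, 0)) n e
    rw [h2]
  rw [Finset.sum_congr rfl fun e _ => h1 e, Finset.sum_const, Finset.card_univ, nsmul_eq_mul]
  rw [mul_comm, mul_div_assoc]
  exact mul_le_of_le_one_right (abs_nonneg β) (div_self_le_one _)

end

end Pool.Agent.N990.RU
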